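import Mathlib

set_option autoImplicit false

namespace Pool.Agent.BC13

open Finset

variable {V : Type*} [Fintype V] [DecidableEq V]

/-- The trilinear form of a 3-graph (ordered triples). -/
noncomputable def tri (H : Finset (Finset V)) (x y z : V → ℝ) : ℝ :=
  ∑ u, ∑ v, ∑ w, if ({u, v, w} : Finset V) ∈ H then x u * y v * z w else 0

/-- The Lagrangian polynomial `∑ x u * x v * x w` over the edges `{u,v,w}` of `H`
(each edge is counted six times among the ordered triples). -/
noncomputable def lagr (H : Finset (Finset V)) (x : V → ℝ) : ℝ :=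
  (∑ u, ∑ v, ∑ w, if ({u, v, w} : Finset V) ∈ H then x u * x v * x w else 0) / 6

/-- Probability weights on the vertex set. -/
def IsWeight (x : V → ℝ) : Prop := (∀ v, 0 ≤ x v) ∧ ∑ v, x v = 1

/-- The `y`-weight of the link of `v`: the sum of `y u * y w` over the pairs `{u,w}` such that
`{v,u,w}` is an edge (each pair is counted twice among the ordered pairs). -/
noncomputable def link (H : Finset (Finset V)) (y : V → ℝ) (v : V) : ℝ :=
  (∑ u, ∑ w, if ({v, u, w} : Finset V) ∈ H then y u * y w else 0) / 2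

lemma lagr_eq (H : Finset (Finset V)) (x : V → ℝ) : lagr H x = tri H x x x / 6 := rfl

lemma tri_comm12 (H : Finset (Finset V)) (x y z : V → ℝ) : tri H x y z = tri H y x z := by
  unfold tri
  rw [Finset.sum_comm]
  refine Finset.sum_congr rfl fun u _ => Finset.sum_congr rfl fun v _ =>
    Finset.sum_congr rfl fun w _ => ?_
  have h : ({v, u, w} : Finset V) = {u, v, w} := Finset.insert_comm _ _ _
  rw [h]
  split_ifs <;> ring

lemma tri_comm23 (H : Finset (Finset V)) (x y z : V → ℝ) : tri H x y z = tri H x z y := by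
  unfold tri
  refine Finset.sum_congr rfl fun u _ => ?_
  rw [Finset.sum_comm]
  refine Finset.sum_congr rfl fun v _ => Finset.sum_congr rfl fun w _ => ?_
  have h : ({u, w, v} : Finset V) = {u, v, w} := by
    rw [Finset.pair_comm w v]
  rw [h]
  split_ifs <;> ring

lemma tri_add1 (H : Finset (Finset V)) (x x' y z : V → ℝ) :
    tri H (x + x') y z = tri H x y z + tri H x' y z := by
  simp only [tri, ← Finset.sum_add_distrib]
  refine Finset.sum_congr rfl fun u _ => Finset.sum_congr rfl fun v _ =>
    Finset.sum_congr rfl fun w _ => ?_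
  simp only [Pi.add_apply]
  split_ifs <;> ring

lemma tri_smul1 (H : Finset (Finset V)) (c : ℝ) (x y z : V → ℝ) :
    tri H (c • x) y z = c * tri H x y z := by
  simp only [tri, Finset.mul_sum]
  refine Finset.sum_congr rfl fun u _ => Finset.sum_congr rfl fun v _ =>
    Finset.sum_congr rfl fun w _ => ?_
  simp only [Pi.smul_apply, smul_eq_mul]
  split_ifs <;> ring

lemma tri_add2 (H : Finset (Finset V)) (x y y' z : V → ℝ) :
    tri H x (y + y') z = tri H x y z + tri H x y' z := by
  rw [tri_comm12, tri_add1, tri_comm12 H y, tri_comm12 H y']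

lemma tri_smul2 (H : Finset (Finset V)) (c : ℝ) (x y z : V → ℝ) :
    tri H x (c • y) z = c * tri H x y z := by
  rw [tri_comm12, tri_smul1, tri_comm12 H y]

lemma tri_add3 (H : Finset (Finset V)) (x y z z' : V → ℝ) :
    tri H x y (z + z') = tri H x y z + tri H x y z' := by
  rw [tri_comm23, tri_add2, tri_comm23 H x z, tri_comm23 H x z']

lemma tri_smul3 (H : Finset (Finset V)) (c : ℝ) (x y z : V → ℝ) :
    tri H x y (c • z) = c * tri H x y z := by
  rw [tri_comm23, tri_smul2, tri_comm23 H x z]

lemma tri_neg1 (H : Finset (Finset V)) (x y z : V → ℝ) : tri H (-x) y z = - tri H x y z := by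
  have h := tri_smul1 H (-1) x y z
  rw [neg_one_smul, neg_one_mul] at h
  exact h

lemma tri_neg2 (H : Finset (Finset V)) (x y z : V → ℝ) : tri H x (-y) z = - tri H x y z := by
  have h := tri_smul2 H (-1) x y z
  rw [neg_one_smul, neg_one_mul] at h
  exact h

lemma tri_neg3 (H : Finset (Finset V)) (x y z : V → ℝ) : tri H x y (-z) = - tri H x y z := by
  have h := tri_smul3 H (-1) x y z
  rw [neg_one_smul, neg_one_mul] at h
  exact h

lemma tri_sub2 (H : Finset (Finset V)) (x y y' z : V → ℝ) :
    tri H x (y - y') z = tri H x y z - tri H x y' z := by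
  rw [sub_eq_add_neg, tri_add2, tri_neg2, ← sub_eq_add_neg]

lemma tri_sub3 (H : Finset (Finset V)) (x y z z' : V → ℝ) :
    tri H x y (z - z') = tri H x y z - tri H x y z' := by
  rw [sub_eq_add_neg, tri_add3, tri_neg3, ← sub_eq_add_neg]

lemma tri_nonneg (H : Finset (Finset V)) {x y z : V → ℝ} (hx : ∀ v, 0 ≤ x v)
    (hy : ∀ v, 0 ≤ y v) (hz : ∀ v, 0 ≤ z v) : 0 ≤ tri H x y z := by
  unfold tri
  refine Finset.sum_nonneg fun u _ => Finset.sum_nonneg fun v _ => Finset.sum_nonneg fun w _ => ?_
  split_ifs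
  · exact mul_nonneg (mul_nonneg (hx u) (hy v)) (hz w)
  · exact le_rfl

lemma tri_le (H : Finset (Finset V)) {x y z : V → ℝ} (hx : ∀ v, 0 ≤ x v)
    (hy : ∀ v, 0 ≤ y v) (hz : ∀ v, 0 ≤ z v) :
    tri H x y z ≤ (∑ v, x v) * (∑ v, y v) * (∑ v, z v) := by
  have h : (∑ v, x v) * (∑ v, y v) * (∑ v, z v) = ∑ u, ∑ v, ∑ w, x u * y v * z w := by
    rw [Finset.sum_mul_sum, Finset.sum_mul]
    refine Finset.sum_congr rfl fun u _ => ?_
    rw [Finset.sum_mul]
    refine Finset.sum_congr rfl fun v _ => ?_
    rw [Finset.mul_sum]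
  rw [h]
  unfold tri
  refine Finset.sum_le_sum fun u _ => Finset.sum_le_sum fun v _ => Finset.sum_le_sum fun w _ => ?_
  split_ifs
  · exact le_rfl
  · exact mul_nonneg (mul_nonneg (hx u) (hy v)) (hz w)

/-- the point mass at `a` -/
noncomputable def pt (a : V) : V → ℝ := Pi.single a 1

omit [Fintype V] in
lemma pt_nonneg (a : V) (v : V) : 0 ≤ pt a v := by
  unfold pt
  by_cases h : v = a
  · subst h; simp
  · simp [h]

lemma sum_pt (a : V) : ∑ v, pt a v = 1 := by
  unfold pt
  simp

lemma tri_pt (H : Finset (Finset V)) (a : V) (y z : V → ℝ) :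
    tri H (pt a) y z = ∑ v, ∑ w, if ({a, v, w} : Finset V) ∈ H then y v * z w else 0 := by
  unfold tri pt
  rw [Finset.sum_eq_single a]
  · refine Finset.sum_congr rfl fun v _ => Finset.sum_congr rfl fun w _ => ?_
    simp
  · intro b _ hb
    refine Finset.sum_eq_zero fun v _ => Finset.sum_eq_zero fun w _ => ?_
    simp [hb]
  · intro h
    exact absurd (Finset.mem_univ a) h

lemma link_eq (H : Finset (Finset V)) (y : V → ℝ) (a : V) : link H y a = tri H (pt a) y y / 2 := by
  rw [tri_pt]; rfl

/-- The form is determined by its values at points (first slot). -/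
lemma tri_sum1 (H : Finset (Finset V)) (x y z : V → ℝ) :
    tri H x y z = ∑ a, x a * tri H (pt a) y z := by
  simp only [tri_pt]
  unfold tri
  refine Finset.sum_congr rfl fun u _ => ?_
  rw [Finset.mul_sum]
  refine Finset.sum_congr rfl fun v _ => ?_
  rw [Finset.mul_sum]
  refine Finset.sum_congr rfl fun w _ => ?_
  split_ifs <;> ring

lemma tri_sum3 (H : Finset (Finset V)) (x y z : V → ℝ) :
    tri H x y z = ∑ a, z a * tri H x y (pt a) := by
  rw [tri_comm23, tri_comm12, tri_sum1]
  refine Finset.sum_congr rfl fun a _ => ?_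
  rw [tri_comm12 H (pt a), tri_comm23 H x (pt a)]

/-- weighted codegree of the pair `u, v` -/
noncomputable def cod (H : Finset (Finset V)) (y : V → ℝ) (u v : V) : ℝ :=
  tri H y (pt u) (pt v)

lemma cod_eq (H : Finset (Finset V)) (y : V → ℝ) (u v : V) :
    cod H y u v = ∑ w, if ({w, u, v} : Finset V) ∈ H then y w else 0 := by
  unfold cod
  rw [tri_sum1]
  refine Finset.sum_congr rfl fun w _ => ?_
  rw [tri_pt, Finset.sum_eq_single u, Finset.sum_eq_single v]
  · split_ifs <;> simp [pt]
  · intro b _ hb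
    simp [pt, hb]
  · intro h
    exact absurd (Finset.mem_univ v) h
  · intro b _ hb
    refine Finset.sum_eq_zero fun c _ => ?_
    simp [pt, hb]
  · intro h
    exact absurd (Finset.mem_univ u) h

lemma cod_comm (H : Finset (Finset V)) (y : V → ℝ) (u v : V) : cod H y u v = cod H y v u := by
  unfold cod
  rw [tri_comm23]

lemma cod_nonneg (H : Finset (Finset V)) {y : V → ℝ} (hy : ∀ v, 0 ≤ y v) (u v : V) :
    0 ≤ cod H y u v := tri_nonneg H hy (pt_nonneg u) (pt_nonneg v)

lemma cod_self (H : Finset (Finset V)) (hH : ∀ e ∈ H, e.card = 3) (y : V → ℝ) (u : V) :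
    cod H y u u = 0 := by
  rw [cod_eq]
  refine Finset.sum_eq_zero fun w _ => ?_
  rw [if_neg]
  intro h
  have h1 := hH _ h
  have h2 : ({w, u, u} : Finset V) = {w, u} := by simp
  rw [h2] at h1
  have h3 : ({w, u} : Finset V).card ≤ 2 := Finset.card_le_two
  omega

lemma cod_le (H : Finset (Finset V)) {y : V → ℝ} (hy : IsWeight y) (u v : V) :
    cod H y u v ≤ 1 := by
  have h := tri_le H hy.1 (pt_nonneg u) (pt_nonneg v)
  rw [hy.2, sum_pt, sum_pt] at h
  unfold cod
  linarith

lemma tri_pt_self (H : Finset (Finset V)) (hH : ∀ e ∈ H, e.card = 3) (a : V) (z : V → ℝ) :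
    tri H (pt a) (pt a) z = 0 := by
  have h := cod_self H hH z a
  unfold cod at h
  rw [tri_comm23, tri_comm12, ]
  exact h

/-- Lagrange condition at a maximizer. -/
lemma lagrange (H : Finset (Finset V)) (hH : ∀ e ∈ H, e.card = 3) (x : V → ℝ)
    (hx : IsWeight x) (hmax : ∀ y : V → ℝ, IsWeight y → lagr H y ≤ lagr H x) (a : V)
    (ha : 0 < x a) : tri H x x x ≤ tri H (pt a) x x := by
  by_contra hlt
  rw [not_le] at hlt
  set L := tri H x x x with hL
  set G := tri H (pt a) x x with hG
  have hG0 : 0 ≤ G := tri_nonneg H (pt_nonneg a) hx.1 hx.1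
  -- for small s>0 the shifted point is a weight
  have key : ∀ s : ℝ, 0 < s → s ≤ x a → (1 + s) ^ 3 * L - 3 * s * (1 + s) ^ 2 * G ≤ L := by
    intro s hs hsa
    have hy : IsWeight ((1 + s) • x + (-s) • pt a) := by
      refine ⟨fun v => ?_, ?_⟩
      · have := hx.1 v
        by_cases hv : v = a
        · subst hv
          simp only [pt, Pi.add_apply, Pi.smul_apply, smul_eq_mul, Pi.single_eq_same]
          nlinarith
        · simp only [pt, Pi.add_apply, Pi.smul_apply, smul_eq_mul, ne_eq, hv, not_false_eq_true,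
            Pi.single_eq_of_ne, mul_zero, add_zero]
          nlinarith
      · simp only [Pi.add_apply, Pi.smul_apply, smul_eq_mul]
        rw [Finset.sum_add_distrib, ← Finset.mul_sum, ← Finset.mul_sum, hx.2, sum_pt]
        ring
    have h1 := hmax _ hy
    have h2 : tri H (pt a) (pt a) x = 0 := tri_pt_self H hH a x
    have h2' : tri H (pt a) (pt a) (pt a) = 0 := tri_pt_self H hH a _
    have h3 : tri H (pt a) x (pt a) = 0 := by rw [tri_comm23]; exact h2
    have h4 : tri H x (pt a) (pt a) = 0 := by rw [tri_comm12]; exact h3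
    have h5 : tri H x x (pt a) = tri H (pt a) x x := by rw [tri_comm23, tri_comm12]
    have h6 : tri H x (pt a) x = tri H (pt a) x x := by rw [tri_comm12]
    rw [lagr_eq, lagr_eq] at h1
    simp only [tri_add1, tri_add2, tri_add3, tri_smul1, tri_smul2, tri_smul3] at h1
    rw [h2, h2', h3, h4, h5, h6] at h1
    nlinarith
  -- contradiction for small s
  have hLG : 0 < L - G := by linarith
  set s := min (x a) ((L - G) / (L - G + 2 * G + 1)) with hs
  have hd : 0 < L - G + 2 * G + 1 := by linarith
  have hspos : 0 < s := lt_min ha (div_pos hLG hd)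
  have hsle : s ≤ (L - G) / (L - G + 2 * G + 1) := min_le_right _ _
  have hs2 : s * (L - G + 2 * G + 1) ≤ L - G := by
    rw [le_div_iff₀ hd] at hsle
    exact hsle
  have h1 := key s hspos (min_le_left _ _)
  have hs1 : s ≤ 1 := by
    have : s * (L - G + 2 * G + 1) ≤ L - G := hs2
    by_contra hc
    rw [not_le] at hc
    nlinarith
  nlinarith [mul_pos hspos hLG, mul_pos hspos hspos, mul_nonneg hspos.le hG0,
    mul_nonneg (mul_pos hspos hspos).le hG0, mul_pos (mul_pos hspos hspos) hspos,
    mul_nonneg (mul_pos (mul_pos hspos hspos) hspos).le hG0]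

end Pool.Agent.BC13
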