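import Pool.Agent.Lib.BC13.Basic

set_option autoImplicit false

namespace Pool.Agent.BC13

open Finset

variable {V : Type*} [Fintype V] [DecidableEq V]

/-- support of a weight function -/
noncomputable def supp (y : V → ℝ) : Finset V := univ.filter (fun v => y v ≠ 0)

omit [DecidableEq V] in
lemma mem_supp (y : V → ℝ) (v : V) : v ∈ supp y ↔ y v ≠ 0 := by
  simp [supp]

/-- no weighting supported on at most `N` vertices has value more than `ρ` -/
def Small (H : Finset (Finset V)) (ρ : ℝ) (N : ℕ) : Prop :=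
  ∀ w : V → ℝ, IsWeight w → (supp w).card ≤ N → lagr H w ≤ ρ

omit [DecidableEq V] in
lemma mix_weight {y ξ : V → ℝ} (hy : IsWeight y) (hξ : IsWeight ξ) {t : ℝ} (h0 : 0 ≤ t)
    (h1 : t ≤ 1) : IsWeight ((1 - t) • y + t • ξ) := by
  refine ⟨fun v => ?_, ?_⟩
  · simp only [Pi.add_apply, Pi.smul_apply, smul_eq_mul]
    have := hy.1 v
    have := hξ.1 v
    have h3 : 0 ≤ 1 - t := by linarith
    positivity
  · simp only [Pi.add_apply, Pi.smul_apply, smul_eq_mul]
    rw [Finset.sum_add_distrib, ← Finset.mul_sum, ← Finset.mul_sum, hy.2, hξ.2]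
    ring

lemma mix_supp (y ξ : V → ℝ) (t : ℝ) :
    supp ((1 - t) • y + t • ξ) ⊆ supp y ∪ supp ξ := by
  intro v hv
  rw [mem_union, mem_supp, mem_supp]
  rw [mem_supp] at hv
  by_contra hc
  push Not at hc
  apply hv
  simp [hc.1, hc.2]

lemma tri_mix (H : Finset (Finset V)) (y ξ : V → ℝ) (t : ℝ) :
    tri H ((1 - t) • y + t • ξ) ((1 - t) • y + t • ξ) ((1 - t) • y + t • ξ)
      = (1 - t) ^ 3 * tri H y y y + 3 * (1 - t) ^ 2 * t * tri H ξ y y
        + 3 * (1 - t) * t ^ 2 * tri H y ξ ξ + t ^ 3 * tri H ξ ξ ξ := by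
  have h1 : tri H y ξ y = tri H ξ y y := tri_comm12 H _ _ _
  have h2 : tri H y y ξ = tri H ξ y y := by rw [tri_comm23, tri_comm12]
  have h3 : tri H ξ y ξ = tri H y ξ ξ := tri_comm12 H _ _ _
  have h4 : tri H ξ ξ y = tri H y ξ ξ := by rw [tri_comm23, tri_comm12]
  simp only [tri_add1, tri_add2, tri_add3, tri_smul1, tri_smul2, tri_smul3]
  rw [h1, h2, h3, h4]
  ring

/-- second order perturbation -/
lemma perturb2 (H : Finset (Finset V)) {ρ : ℝ} (hρ : 0 ≤ ρ) {y ξ : V → ℝ} (hy : IsWeight y)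
    (hξ : IsWeight ξ) (h0 : 6 * ρ ≤ tri H y y y) (h1 : 6 * ρ ≤ tri H ξ y y)
    (h2 : 6 * ρ < tri H y ξ ξ) :
    ∃ w, IsWeight w ∧ supp w ⊆ supp y ∪ supp ξ ∧ ρ < lagr H w := by
  set q := tri H y ξ ξ - 6 * ρ with hq
  have hq0 : 0 < q := by linarith
  have hd : 0 < q + 2 * ρ + 1 := by linarith
  set t := q / (q + 2 * ρ + 1) with ht
  have ht0 : 0 < t := div_pos hq0 hd
  have htd : t * (q + 2 * ρ + 1) = q := by
    rw [ht]; field_simp
  have ht1 : t < 1 := by
    rw [ht, div_lt_one hd]; linarith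
  refine ⟨(1 - t) • y + t • ξ, mix_weight hy hξ ht0.le ht1.le, mix_supp y ξ t, ?_⟩
  rw [lagr_eq, tri_mix]
  have h3 : 0 ≤ tri H ξ ξ ξ := tri_nonneg H hξ.1 hξ.1 hξ.1
  have e1 : 0 ≤ 1 - t := by linarith
  have p1 : (1 - t) ^ 3 * (6 * ρ) ≤ (1 - t) ^ 3 * tri H y y y :=
    mul_le_mul_of_nonneg_left h0 (by positivity)
  have p2 : 3 * (1 - t) ^ 2 * t * (6 * ρ) ≤ 3 * (1 - t) ^ 2 * t * tri H ξ y y :=
    mul_le_mul_of_nonneg_left h1 (by positivity)
  have p3 : 3 * (1 - t) * t ^ 2 * tri H y ξ ξ = 3 * (1 - t) * t ^ 2 * (6 * ρ + q) := by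
    rw [hq]; ring
  have p4 : 0 ≤ t ^ 3 * tri H ξ ξ ξ := by positivity
  -- (1 - t) q > 2 ρ t
  have key : 2 * ρ * t < (1 - t) * q := by nlinarith
  have key2 : 0 < 3 * t ^ 2 * ((1 - t) * q - 2 * ρ * t) := by
    have : 0 < (1 - t) * q - 2 * ρ * t := by linarith
    positivity
  rw [p3]
  have : 6 * ρ < (1 - t) ^ 3 * (6 * ρ) + 3 * (1 - t) ^ 2 * t * (6 * ρ)
      + 3 * (1 - t) * t ^ 2 * (6 * ρ + q) := by
    have e : (1 - t) ^ 3 * (6 * ρ) + 3 * (1 - t) ^ 2 * t * (6 * ρ)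
      + 3 * (1 - t) * t ^ 2 * (6 * ρ + q) = 6 * ρ + 3 * t ^ 2 * ((1 - t) * q - 2 * ρ * t) := by
      ring
    rw [e]; linarith
  linarith

/-- first order perturbation -/
lemma perturb1 (H : Finset (Finset V)) {ρ : ℝ} (hρ : 0 ≤ ρ) {y ξ : V → ℝ} (hy : IsWeight y)
    (hξ : IsWeight ξ) (h0 : 6 * ρ ≤ tri H y y y) (h1 : 6 * ρ < tri H ξ y y) :
    ∃ w, IsWeight w ∧ supp w ⊆ supp y ∪ supp ξ ∧ ρ < lagr H w := by
  set q := tri H ξ y y - 6 * ρ with hq
  have hq0 : 0 < q := by linarith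
  have hd : 0 < 4 * q + 24 * ρ + 4 := by linarith
  set t := q / (4 * q + 24 * ρ + 4) with ht
  have ht0 : 0 < t := div_pos hq0 hd
  have htd : t * (4 * q + 24 * ρ + 4) = q := by
    rw [ht]; field_simp
  have ht1 : t < 1 / 4 := by
    rw [ht, div_lt_div_iff₀ hd (by norm_num)]; linarith
  refine ⟨(1 - t) • y + t • ξ, mix_weight hy hξ ht0.le (by linarith), mix_supp y ξ t, ?_⟩
  rw [lagr_eq, tri_mix]
  have h3 : 0 ≤ tri H ξ ξ ξ := tri_nonneg H hξ.1 hξ.1 hξ.1
  have h4 : 0 ≤ tri H y ξ ξ := tri_nonneg H hy.1 hξ.1 hξ.1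
  have e1 : 0 ≤ 1 - t := by linarith
  have p1 : (1 - t) ^ 3 * (6 * ρ) ≤ (1 - t) ^ 3 * tri H y y y :=
    mul_le_mul_of_nonneg_left h0 (by positivity)
  have p2 : 3 * (1 - t) ^ 2 * t * tri H ξ y y = 3 * (1 - t) ^ 2 * t * (6 * ρ + q) := by
    rw [hq]; ring
  have p3 : 0 ≤ 3 * (1 - t) * t ^ 2 * tri H y ξ ξ := by positivity
  have p4 : 0 ≤ t ^ 3 * tri H ξ ξ ξ := by positivity
  rw [p2]
  have e2 : 1 / 2 ≤ (1 - t) ^ 2 := by nlinarith
  have key : 6 * ρ * t < (1 - t) ^ 2 * q := by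
    have a1 : 6 * ρ * t ≤ q / 4 := by nlinarith
    have a2 : q / 2 ≤ (1 - t) ^ 2 * q := by nlinarith
    linarith
  have : 6 * ρ < (1 - t) ^ 3 * (6 * ρ) + 3 * (1 - t) ^ 2 * t * (6 * ρ + q) := by
    have e : (1 - t) ^ 3 * (6 * ρ) + 3 * (1 - t) ^ 2 * t * (6 * ρ + q)
        = 6 * ρ + 3 * t * ((1 - t) ^ 2 * q - 6 * ρ * t) + 12 * ρ * t ^ 3 := by ring
    rw [e]
    have : 0 < 3 * t * ((1 - t) ^ 2 * q - 6 * ρ * t) := by
      have : 0 < (1 - t) ^ 2 * q - 6 * ρ * t := by linarith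
      positivity
    have : 0 ≤ 12 * ρ * t ^ 3 := by positivity
    linarith
  linarith

/-- The second order form at `y`. -/
noncomputable def qf (H : Finset (Finset V)) (ρ : ℝ) (y a b : V → ℝ) : ℝ :=
  6 * ρ * (∑ v, a v) * (∑ v, b v) - tri H y a b

lemma qf_comm (H : Finset (Finset V)) (ρ : ℝ) (y a b : V → ℝ) :
    qf H ρ y a b = qf H ρ y b a := by
  unfold qf
  rw [tri_comm23]
  ring

lemma qf_add (H : Finset (Finset V)) (ρ : ℝ) (y a b c : V → ℝ) :
    qf H ρ y (a + b) c = qf H ρ y a c + qf H ρ y b c := by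
  unfold qf
  rw [tri_add2]
  simp only [Pi.add_apply, Finset.sum_add_distrib]
  ring

lemma qf_smul (H : Finset (Finset V)) (ρ : ℝ) (y : V → ℝ) (t : ℝ) (a c : V → ℝ) :
    qf H ρ y (t • a) c = t * qf H ρ y a c := by
  unfold qf
  rw [tri_smul2]
  simp only [Pi.smul_apply, smul_eq_mul, ← Finset.mul_sum]
  ring

lemma qf_line (H : Finset (Finset V)) (ρ : ℝ) (y a d : V → ℝ) (t : ℝ) :
    qf H ρ y (a + t • d) (a + t • d) = qf H ρ y a a + 2 * t * qf H ρ y d a
      + t ^ 2 * qf H ρ y d d := by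
  rw [qf_add, qf_comm H ρ y a, qf_add, qf_smul, qf_smul, qf_comm H ρ y d (a + t • d), qf_add,
    qf_smul, qf_comm H ρ y a d]
  ring

/-- `y` is in the kernel of its second order form on the neutral vertices. -/
lemma qf_kernel (H : Finset (Finset V)) (ρ : ℝ) {y : V → ℝ} (hy : IsWeight y) (U : Finset V)
    (hneu : ∀ z ∈ U, tri H (pt z) y y = 6 * ρ) {b : V → ℝ} (hb : supp b ⊆ U) :
    qf H ρ y y b = 0 := by
  unfold qf
  rw [tri_sum3, hy.2]
  have h : ∀ a, b a * tri H y y (pt a) = 6 * ρ * b a := by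
    intro a
    by_cases h0 : b a = 0
    · rw [h0]; ring
    · have h1 : a ∈ U := hb ((mem_supp b a).2 h0)
      have h2 : tri H y y (pt a) = tri H (pt a) y y := by rw [tri_comm23, tri_comm12]
      rw [h2, hneu a h1]
      ring
  rw [Finset.sum_congr rfl (fun a _ => h a), ← Finset.mul_sum]
  ring

/-- the difference of two point masses -/
noncomputable def dd (z w : V) : V → ℝ := pt z - pt w

lemma sum_dd (z w : V) : ∑ v, dd z w v = 0 := by
  unfold dd
  simp only [Pi.sub_apply]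
  rw [Finset.sum_sub_distrib, sum_pt, sum_pt, sub_self]

lemma qf_dd (H : Finset (Finset V)) (hH : ∀ e ∈ H, e.card = 3) (ρ : ℝ) (y : V → ℝ) (z w : V) :
    qf H ρ y (dd z w) (dd z w) = 2 * cod H y z w := by
  unfold qf
  rw [sum_dd]
  unfold dd
  rw [tri_sub2, tri_sub3, tri_sub3]
  change 6 * ρ * 0 * 0 - (cod H y z z - cod H y z w - (cod H y w z - cod H y w w)) = _
  rw [cod_self H hH, cod_self H hH, cod_comm H y w z]
  ring

lemma qf_dd_left (H : Finset (Finset V)) (ρ : ℝ) (y : V → ℝ) (z w : V) (ξ : V → ℝ) :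
    qf H ρ y (dd z w) ξ = ∑ u, ξ u * (cod H y w u - cod H y z u) := by
  unfold qf
  rw [sum_dd]
  unfold dd
  rw [tri_sub2, tri_sum3 H y (pt z) ξ, tri_sum3 H y (pt w) ξ, mul_zero, zero_mul, zero_sub,
    ← Finset.sum_sub_distrib, ← Finset.sum_neg_distrib]
  refine Finset.sum_congr rfl fun u _ => ?_
  unfold cod
  ring

lemma qf_pt (H : Finset (Finset V)) (hH : ∀ e ∈ H, e.card = 3) (ρ : ℝ) (y : V → ℝ) (u : V) :
    qf H ρ y (pt u) (pt u) = 6 * ρ := by
  unfold qf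
  rw [sum_pt]
  change 6 * ρ * 1 * 1 - cod H y u u = _
  rw [cod_self H hH]
  ring

/-- `K4-` violates every bound below `4/81`. -/
lemma k4_violation (H : Finset (Finset V)) {ρ : ℝ} (hρ : ρ < 4 / 81) (N : ℕ)
    (hN : 4 ≤ N) (hs : Small H ρ N) (w z z' u : V) (h1 : ({w, z, z'} : Finset V) ∈ H)
    (h2 : ({w, z, u} : Finset V) ∈ H) (h3 : ({w, z', u} : Finset V) ∈ H) : False := by
  set b : V → ℝ := pt z + pt z' + pt u with hb
  set a : V → ℝ := (1 / 3 : ℝ) • pt w + (2 / 9 : ℝ) • b with ha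
  have hbn : ∀ v, 0 ≤ b v := fun v => by
    simp only [hb, Pi.add_apply]
    have := pt_nonneg z v
    have := pt_nonneg z' v
    have := pt_nonneg u v
    linarith
  have hbs : ∑ v, b v = 3 := by
    simp only [hb, Pi.add_apply, Finset.sum_add_distrib, sum_pt]
    norm_num
  have hw : IsWeight a := by
    refine ⟨fun v => ?_, ?_⟩
    · simp only [ha, Pi.add_apply, Pi.smul_apply, smul_eq_mul]
      have := pt_nonneg w v
      have := hbn v
      positivity
    · simp only [ha, Pi.add_apply, Pi.smul_apply, smul_eq_mul]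
      rw [Finset.sum_add_distrib, ← Finset.mul_sum, ← Finset.mul_sum, hbs, sum_pt]
      norm_num
  have hcard : (supp a).card ≤ N := by
    have hsub : supp a ⊆ {w, z, z', u} := by
      intro v hv
      rw [mem_supp] at hv
      by_contra hc
      simp only [mem_insert, mem_singleton, not_or] at hc
      apply hv
      simp [ha, hb, pt, hc.1, hc.2.1, hc.2.2.1, hc.2.2.2]
    have h4 : ({w, z, z', u} : Finset V).card ≤ 4 := Finset.card_le_four
    exact (Finset.card_le_card hsub).trans (h4.trans hN)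
  have hlag := hs a hw hcard
  -- lower bound
  have hexp : tri H a a a = (1 / 27) * tri H (pt w) (pt w) (pt w)
      + 3 * (1 / 9) * (2 / 9) * tri H b (pt w) (pt w)
      + 3 * (1 / 3) * (4 / 81) * tri H (pt w) b b + (8 / 729) * tri H b b b := by
    have e1 : tri H (pt w) b (pt w) = tri H b (pt w) (pt w) := tri_comm12 H _ _ _
    have e2 : tri H (pt w) (pt w) b = tri H b (pt w) (pt w) := by rw [tri_comm23, tri_comm12]
    have e3 : tri H b (pt w) b = tri H (pt w) b b := tri_comm12 H _ _ _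
    have e4 : tri H b b (pt w) = tri H (pt w) b b := by rw [tri_comm23, tri_comm12]
    rw [ha]
    simp only [tri_add1, tri_add2, tri_add3, tri_smul1, tri_smul2, tri_smul3]
    rw [e1, e2, e3, e4]
    ring
  have hpt : ∀ p q r : V, tri H (pt p) (pt q) (pt r) =
      if ({p, q, r} : Finset V) ∈ H then 1 else 0 := by
    intro p q r
    rw [tri_pt, Finset.sum_eq_single q, Finset.sum_eq_single r]
    · simp [pt]
    · intro c _ hc
      simp [pt, hc]
    · intro h
      exact absurd (Finset.mem_univ r) h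
    · intro c _ hc
      refine Finset.sum_eq_zero fun d _ => ?_
      simp [pt, hc]
    · intro h
      exact absurd (Finset.mem_univ q) h
  have hpn : ∀ p q r : V, 0 ≤ tri H (pt p) (pt q) (pt r) := fun p q r =>
    tri_nonneg H (pt_nonneg p) (pt_nonneg q) (pt_nonneg r)
  have hwb : 6 ≤ tri H (pt w) b b := by
    have e : tri H (pt w) b b = tri H (pt w) (pt z) (pt z) + tri H (pt w) (pt z) (pt z')
        + tri H (pt w) (pt z) (pt u) + tri H (pt w) (pt z') (pt z) + tri H (pt w) (pt z') (pt z')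
        + tri H (pt w) (pt z') (pt u) + tri H (pt w) (pt u) (pt z) + tri H (pt w) (pt u) (pt z')
        + tri H (pt w) (pt u) (pt u) := by
      rw [hb]
      simp only [tri_add2, tri_add3]
      ring
    have c1 : tri H (pt w) (pt z) (pt z') = 1 := by rw [hpt, if_pos h1]
    have c2 : tri H (pt w) (pt z) (pt u) = 1 := by rw [hpt, if_pos h2]
    have c3 : tri H (pt w) (pt z') (pt u) = 1 := by rw [hpt, if_pos h3]
    have c4 : tri H (pt w) (pt z') (pt z) = 1 := by rw [tri_comm23, c1]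
    have c5 : tri H (pt w) (pt u) (pt z) = 1 := by rw [tri_comm23, c2]
    have c6 : tri H (pt w) (pt u) (pt z') = 1 := by rw [tri_comm23, c3]
    have d1 := hpn w z z
    have d2 := hpn w z' z'
    have d3 := hpn w u u
    rw [e, c1, c2, c3, c4, c5, c6]
    linarith
  have n1 := hpn w w w
  have n2 : 0 ≤ tri H b (pt w) (pt w) := tri_nonneg H hbn (pt_nonneg w) (pt_nonneg w)
  have n3 : 0 ≤ tri H b b b := tri_nonneg H hbn hbn hbn
  rw [lagr_eq, hexp] at hlag
  linarith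

end Pool.Agent.BC13
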