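import Pool.Agent.Lib.BC13.Core

set_option autoImplicit false

namespace Pool.Agent.BC13

open Finset

variable {V : Type*} [Fintype V] [DecidableEq V]

lemma card_drop {y ξ ξ1 : V → ℝ} {z : V} (h : supp ξ1 ⊆ supp ξ ∪ supp y) (h1 : ξ1 z = 0)
    (h2 : z ∈ supp ξ \ supp y) : (supp ξ1 \ supp y).card < (supp ξ \ supp y).card := by
  apply Finset.card_lt_card
  have hsub : supp ξ1 \ supp y ⊆ supp ξ \ supp y := by
    intro v hv
    rw [mem_sdiff] at hv ⊢
    refine ⟨?_, hv.2⟩
    rcases mem_union.1 (h hv.1) with h3 | h3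
    · exact h3
    · exact absurd h3 hv.2
  rw [Finset.ssubset_iff_of_subset hsub]
  refine ⟨z, h2, fun hc => ?_⟩
  have h3 := (mem_sdiff.1 hc).1
  rw [mem_supp] at h3
  exact h3 h1

lemma violation_big (H : Finset (Finset V)) {ρ : ℝ} (hρ : 0 ≤ ρ) {y : V → ℝ} (hy : IsWeight y)
    (U : Finset V) (hyU : supp y ⊆ U) (hneu : ∀ z ∈ U, tri H (pt z) y y = 6 * ρ) {N : ℕ}
    (hs : Small H ρ N) {ξ : V → ℝ} (h0 : ∀ v, 0 ≤ ξ v) (hU : supp ξ ⊆ U)
    (hq : qf H ρ y ξ ξ < 0) : N < (supp y ∪ supp ξ).card := by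
  by_contra hc
  rw [not_lt] at hc
  have hS0 : 0 ≤ ∑ v, ξ v := Finset.sum_nonneg fun v _ => h0 v
  rcases hS0.eq_or_lt with hS | hS
  · have hz : ξ = 0 := by
      funext v
      have h1 := (Finset.sum_eq_zero_iff_of_nonneg (fun v _ => h0 v)).1 hS.symm v (Finset.mem_univ v)
      simpa using h1
    rw [hz] at hq
    have h2 : qf H ρ y (0 : V → ℝ) 0 = 0 := by
      have h3 := qf_smul H ρ y 0 (0 : V → ℝ) 0
      simpa using h3
    linarith
  · set S := ∑ v, ξ v with hSdef
    set ξ' : V → ℝ := S⁻¹ • ξ with hξ'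
    have hw : IsWeight ξ' := by
      refine ⟨fun v => ?_, ?_⟩
      · simp only [hξ', Pi.smul_apply, smul_eq_mul]
        have := h0 v
        positivity
      · simp only [hξ', Pi.smul_apply, smul_eq_mul]
        rw [← Finset.mul_sum, ← hSdef]
        field_simp
    have hsupp : supp ξ' ⊆ supp ξ := by
      intro v hv
      rw [mem_supp] at hv ⊢
      intro h
      apply hv
      simp [hξ', h]
    have hyyy : tri H y y y = 6 * ρ := by
      have h3 := qf_kernel H ρ hy U hneu hyU
      unfold qf at h3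
      rw [hy.2] at h3
      linarith
    have hξyy : tri H ξ' y y = 6 * ρ := by
      rw [tri_sum1]
      have h3 : ∀ a, ξ' a * tri H (pt a) y y = 6 * ρ * ξ' a := by
        intro a
        by_cases h4 : ξ' a = 0
        · rw [h4]; ring
        · rw [hneu a (hU (hsupp ((mem_supp ξ' a).2 h4)))]
          ring
      rw [Finset.sum_congr rfl (fun a _ => h3 a), ← Finset.mul_sum, hw.2, mul_one]
    have hyξξ : 6 * ρ < tri H y ξ' ξ' := by
      have h3 : qf H ρ y ξ' ξ' < 0 := by
        rw [hξ', qf_smul, qf_comm, qf_smul]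
        have h4 : 0 < S⁻¹ := inv_pos.2 hS
        nlinarith [mul_pos h4 h4]
      unfold qf at h3
      rw [hw.2] at h3
      linarith
    obtain ⟨w, hw1, hw2, hw3⟩ := perturb2 H hρ hy hw hyyy.ge hξyy.ge hyξξ
    have h5 := hs w hw1 ((Finset.card_le_card
      (hw2.trans (Finset.union_subset_union_right hsupp))).trans hc)
    linarith

/-- A codegree comparison: if `z` and `w ∈ supp y` have no `y`-codegree then `w` dominates `z`. -/
lemma dominate (H : Finset (Finset V)) (hH : ∀ e ∈ H, e.card = 3) {ρ : ℝ} (hρ : 0 ≤ ρ)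
    {y : V → ℝ} (hy : IsWeight y) {k : ℕ} (hk : (supp y).card ≤ k)
    (U : Finset V) (hyU : supp y ⊆ U) (hneu : ∀ z ∈ U, tri H (pt z) y y = 6 * ρ) {N : ℕ}
    (hN : k + 2 ≤ N) (hs : Small H ρ N) {z w u : V} (hz : z ∈ U) (hw : w ∈ supp y)
    (hzw : cod H y z w = 0) (hu : u ∈ U) : cod H y z u ≤ cod H y w u := by
  by_contra hlt
  rw [not_le] at hlt
  set g := cod H y z u - cod H y w u with hg
  have hg0 : 0 < g := by linarith
  have hyw : 0 < y w := lt_of_le_of_ne (hy.1 w) (Ne.symm ((mem_supp y w).1 hw))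
  set a := (6 * ρ + 1) / (2 * g) with ha
  have ha0 : 0 < a := by positivity
  have hag : 2 * a * g = 6 * ρ + 1 := by rw [ha]; field_simp
  set s := a / y w with hsdef
  have hs0 : 0 < s := div_pos ha0 hyw
  have hsw : s * y w = a := by rw [hsdef]; field_simp
  set ζ : V → ℝ := pt u + a • dd z w with hζ
  set ξ : V → ℝ := ζ + s • y with hξ
  have hζval : ∀ v, ζ v = pt u v + a * (pt z v - pt w v) := by
    intro v; simp [hζ, dd]
  have hsuppζ : supp ζ ⊆ supp y ∪ {z, u} := by
    intro v hv
    rw [mem_supp, hζval] at hv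
    rw [mem_union]
    by_contra hc
    rw [not_or, mem_insert, mem_singleton, not_or] at hc
    obtain ⟨h1, h2, h3⟩ := hc
    have h4 : v ≠ w := fun h => h1 (h ▸ hw)
    apply hv
    simp [pt, h2, h3, h4]
  have hsuppξ : supp ξ ⊆ supp y ∪ {z, u} := by
    intro v hv
    by_contra hc
    have h1 : v ∉ supp ζ := fun h => hc (hsuppζ h)
    have h2 : v ∉ supp y := fun h => hc (mem_union_left _ h)
    rw [mem_supp, not_not] at h1 h2
    rw [mem_supp] at hv
    apply hv
    simp [hξ, h1, h2]
  have hsubU : supp y ∪ {z, u} ⊆ U := by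
    intro v hv
    rcases mem_union.1 hv with h | h
    · exact hyU h
    · rcases mem_insert.1 h with h | h
      · rw [h]; exact hz
      · rw [mem_singleton.1 h]; exact hu
  have hnn : ∀ v, 0 ≤ ξ v := by
    intro v
    have e : ξ v = pt u v + a * (pt z v - pt w v) + s * y v := by
      simp [hξ, hζval]
    rw [e]
    have h1 := pt_nonneg u v
    have h2 := pt_nonneg z v
    have h3 := hy.1 v
    by_cases hvw : v = w
    · subst hvw
      have h4 : pt v v = (1 : ℝ) := by simp [pt]
      rw [h4, hsw]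
      nlinarith [mul_nonneg ha0.le h2]
    · have h4 : pt w v = (0 : ℝ) := by simp [pt, hvw]
      rw [h4]
      have h5 : 0 ≤ a * (pt z v - 0) := mul_nonneg ha0.le (by linarith)
      have h6 : 0 ≤ s * y v := mul_nonneg hs0.le h3
      linarith
  have hqζ : qf H ρ y ζ ζ = -1 := by
    rw [hζ, qf_line, qf_pt H hH, qf_dd H hH, hzw, qf_dd_left]
    have e : ∑ v, pt u v * (cod H y w v - cod H y z v) = - g := by
      rw [Finset.sum_eq_single u]
      · rw [hg]; simp [pt]
      · intro b _ hb
        simp [pt, hb]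
      · intro h
        exact absurd (Finset.mem_univ u) h
    rw [e]
    linarith
  have hq : qf H ρ y ξ ξ = -1 := by
    have k1 : qf H ρ y y ζ = 0 := qf_kernel H ρ hy U hneu (hsuppζ.trans hsubU)
    have k2 : qf H ρ y y y = 0 := qf_kernel H ρ hy U hneu hyU
    rw [hξ, qf_line, k1, k2, hqζ]
    ring
  have hbig := violation_big H hρ hy U hyU hneu hs hnn (hsuppξ.trans hsubU) (by rw [hq]; norm_num)
  have hcard : (supp y ∪ supp ξ).card ≤ k + 2 := by
    have h1 : supp y ∪ supp ξ ⊆ supp y ∪ {z, u} :=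
      Finset.union_subset Finset.subset_union_left hsuppξ
    have h2 := Finset.card_le_card h1
    have h3 := Finset.card_union_le (supp y) ({z, u} : Finset V)
    have h4 : ({z, u} : Finset V).card ≤ 2 := Finset.card_le_two
    omega
  omega

/-- Core lemma: without violations on few vertices the second order form at `y` is copositive on
the neutral vertices. -/
theorem core (H : Finset (Finset V)) (hH : ∀ e ∈ H, e.card = 3) {ρ : ℝ} (hρ : 0 ≤ ρ)
    (hρ2 : ρ < 4 / 81) {y : V → ℝ} (hy : IsWeight y) {k : ℕ} (hk : (supp y).card ≤ k)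
    (U : Finset V) (hyU : supp y ⊆ U) (hneu : ∀ z ∈ U, tri H (pt z) y y = 6 * ρ)
    (hs : Small H ρ (k + 2 ^ (k ^ 2) + 4)) (ξ : V → ℝ) (h0 : ∀ v, 0 ≤ ξ v)
    (hU : supp ξ ⊆ U) : 0 ≤ qf H ρ y ξ ξ := by
  classical
  suffices hmain : ∀ n : ℕ, ∀ ξ : V → ℝ, (∀ v, 0 ≤ ξ v) → supp ξ ⊆ U →
      (supp ξ \ supp y).card = n → 0 ≤ qf H ρ y ξ ξ from hmain _ ξ h0 hU rfl
  intro n
  induction n using Nat.strong_induction_on with
  | _ n ih =>
  intro ξ h0 hU hn
  by_contra hneg
  rw [not_le] at hneg
  -- minimality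
  have hmin : ∀ ξ1 : V → ℝ, (∀ v, 0 ≤ ξ1 v) → supp ξ1 ⊆ supp ξ ∪ supp y →
      ∀ z ∈ supp ξ \ supp y, ξ1 z = 0 → 0 ≤ qf H ρ y ξ1 ξ1 := by
    intro ξ1 h1 h2 z hz h3
    have h4 := card_drop h2 h3 hz
    rw [hn] at h4
    exact ih _ h4 ξ1 h1 (h2.trans (Finset.union_subset hU hyU)) rfl
  -- F1
  have F1 : ∀ z ∈ supp ξ \ supp y, ∀ w ∈ supp y, ∃ u ∈ supp y, ({u, z, w} : Finset V) ∈ H := by
    intro z hz w hw
    by_contra hno
    push Not at hno
    have hcod : cod H y z w = 0 := by
      rw [cod_eq]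
      refine Finset.sum_eq_zero fun u _ => ?_
      by_cases hu : u ∈ supp y
      · rw [if_neg (hno u hu)]
      · rw [mem_supp, not_not] at hu
        rw [hu]
        simp
    have hzξ : z ∈ supp ξ := (mem_sdiff.1 hz).1
    have hzy : z ∉ supp y := (mem_sdiff.1 hz).2
    have hzw : z ≠ w := fun h => hzy (h ▸ hw)
    have hz0 : 0 < ξ z := lt_of_le_of_ne (h0 z) (Ne.symm ((mem_supp ξ z).1 hzξ))
    set ξ1 : V → ℝ := ξ + (-(ξ z)) • dd z w with hξ1
    have hval : ∀ v, ξ1 v = ξ v - ξ z * (pt z v - pt w v) := by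
      intro v
      simp [hξ1, dd]
      ring
    have h1 : ∀ v, 0 ≤ ξ1 v := by
      intro v
      rw [hval]
      by_cases hvz : v = z
      · subst hvz
        have e1 : pt v v = (1 : ℝ) := by simp [pt]
        have e2 : pt w v = (0 : ℝ) := by simp [pt, hzw]
        rw [e1, e2]
        linarith
      · have e1 : pt z v = (0 : ℝ) := by simp [pt, hvz]
        rw [e1]
        have := h0 v
        have := pt_nonneg w v
        nlinarith [mul_nonneg hz0.le this]
    have h2 : supp ξ1 ⊆ supp ξ ∪ supp y := by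
      intro v hv
      rw [mem_supp, hval] at hv
      rw [mem_union]
      by_contra hc
      rw [not_or] at hc
      obtain ⟨c1, c2⟩ := hc
      have c3 : v ≠ w := fun h => c2 (h ▸ hw)
      have c4 : v ≠ z := fun h => c1 (h ▸ hzξ)
      rw [mem_supp, not_not] at c1
      apply hv
      simp [pt, c3, c4, c1]
    have h3 : ξ1 z = 0 := by
      rw [hval]
      have e1 : pt z z = (1 : ℝ) := by simp [pt]
      have e2 : pt w z = (0 : ℝ) := by simp [pt, hzw]
      rw [e1, e2]
      ring
    have h4 := hmin ξ1 h1 h2 z hz h3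
    have h5 : qf H ρ y ξ1 ξ1 ≤ qf H ρ y ξ ξ := by
      rw [hξ1, qf_line, qf_dd H hH, hcod, qf_dd_left]
      have h6 : 0 ≤ ∑ u, ξ u * (cod H y w u - cod H y z u) := by
        refine Finset.sum_nonneg fun u _ => ?_
        by_cases hu : ξ u = 0
        · rw [hu]; simp
        · have hu' : u ∈ U := hU ((mem_supp ξ u).2 hu)
          have h7 : cod H y z u ≤ cod H y w u :=
            dominate H hH hρ hy hk U hyU hneu (by generalize 2 ^ (k ^ 2) = M; omega) hs (hU hzξ) hw
              hcod hu'
          exact mul_nonneg (h0 u) (by linarith)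
      nlinarith [mul_nonneg hz0.le h6]
    linarith
  -- F2
  have F2 : ∀ z ∈ supp ξ \ supp y, ∀ z' ∈ supp ξ \ supp y,
      (∀ u ∈ supp y, ∀ w ∈ supp y, ({u, z, w} : Finset V) ∈ H → ({u, z', w} : Finset V) ∈ H) →
      cod H y z z' = 0 := by
    intro z hz z' hz' htype
    rw [cod_eq]
    refine Finset.sum_eq_zero fun w _ => ?_
    by_cases hw : w ∈ supp y
    · rw [if_neg]
      intro hedge
      obtain ⟨u, hu, hu1⟩ := F1 z hz w hw
      have hu2 := htype u hu w hw hu1
      have e1 : ({w, z, u} : Finset V) = {u, z, w} := by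
        ext v; simp only [mem_insert, mem_singleton]; tauto
      have e2 : ({w, z', u} : Finset V) = {u, z', w} := by
        ext v; simp only [mem_insert, mem_singleton]; tauto
      exact k4_violation H hρ2 _ (Nat.le_add_left 4 _) hs w z z' u hedge (by rw [e1]; exact hu1)
        (by rw [e2]; exact hu2)
    · rw [mem_supp, not_not] at hw
      rw [hw]
      simp
  -- F3 : the types are distinct
  have F3 : ∀ z ∈ supp ξ \ supp y, ∀ z' ∈ supp ξ \ supp y, z ≠ z' → cod H y z z' ≠ 0 := by
    intro z hz z' hz' hne hcod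
    have hzξ : z ∈ supp ξ := (mem_sdiff.1 hz).1
    have hzξ' : z' ∈ supp ξ := (mem_sdiff.1 hz').1
    have hline : ∀ t : ℝ, qf H ρ y (ξ + t • dd z z') (ξ + t • dd z z')
        = qf H ρ y ξ ξ + 2 * t * qf H ρ y (dd z z') ξ := by
      intro t
      rw [qf_line, qf_dd H hH, hcod]
      ring
    have hval : ∀ (t : ℝ) (v : V), (ξ + t • dd z z') v = ξ v + t * (pt z v - pt z' v) := by
      intro t v
      simp [dd]
    have hsub : ∀ t : ℝ, supp (ξ + t • dd z z') ⊆ supp ξ ∪ supp y := by
      intro t v hv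
      rw [mem_supp, hval] at hv
      rw [mem_union]
      by_contra hc
      rw [not_or] at hc
      obtain ⟨c1, _⟩ := hc
      have c3 : v ≠ z' := fun h => c1 (h ▸ hzξ')
      have c4 : v ≠ z := fun h => c1 (h ▸ hzξ)
      rw [mem_supp, not_not] at c1
      apply hv
      simp [pt, c3, c4, c1]
    have ezz : pt z z = (1 : ℝ) := by simp [pt]
    have ezz' : pt z z' = (0 : ℝ) := by simp [pt, hne.symm]
    have ez'z : pt z' z = (0 : ℝ) := by simp [pt, hne]
    have ez'z' : pt z' z' = (1 : ℝ) := by simp [pt]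
    rcases le_total 0 (qf H ρ y (dd z z') ξ) with hsign | hsign
    · -- remove z
      have h1 : ∀ v, 0 ≤ (ξ + (-(ξ z)) • dd z z') v := by
        intro v
        rw [hval]
        by_cases hvz : v = z
        · subst hvz
          rw [ezz, ez'z]
          linarith
        · have e1 : pt z v = (0 : ℝ) := by simp [pt, hvz]
          rw [e1]
          have h2 := h0 v
          have h3 := pt_nonneg z' v
          nlinarith [mul_nonneg (h0 z) h3]
      have h2 : (ξ + (-(ξ z)) • dd z z') z = 0 := by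
        rw [hval, ezz, ez'z]; ring
      have h3 := hmin _ h1 (hsub _) z hz h2
      rw [hline] at h3
      nlinarith [mul_nonneg (h0 z) hsign]
    · -- remove z'
      have h1 : ∀ v, 0 ≤ (ξ + (ξ z') • dd z z') v := by
        intro v
        rw [hval]
        by_cases hvz : v = z'
        · subst hvz
          rw [ezz', ez'z']
          linarith
        · have e1 : pt z' v = (0 : ℝ) := by simp [pt, hvz]
          rw [e1]
          have h2 := h0 v
          have h3 := pt_nonneg z v
          nlinarith [mul_nonneg (h0 z') h3]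
      have h2 : (ξ + (ξ z') • dd z z') z' = 0 := by
        rw [hval, ezz', ez'z']; ring
      have h3 := hmin _ h1 (hsub _) z' hz' h2
      rw [hline] at h3
      nlinarith [mul_nonneg (h0 z') (neg_nonneg.2 hsign)]
  -- F4 : counting
  have F4 : (supp ξ \ supp y).card ≤ 2 ^ (k ^ 2) := by
    have hinj : Set.InjOn (fun z => (supp y ×ˢ supp y).filter
        (fun p : V × V => ({p.1, z, p.2} : Finset V) ∈ H)) (↑(supp ξ \ supp y) : Set V) := by
      intro z hz z' hz' heq
      by_contra hne
      refine F3 z hz z' hz' hne (F2 z hz z' hz' ?_)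
      intro u hu w hw hedge
      have h1 : (u, w) ∈ (supp y ×ˢ supp y).filter
          (fun p : V × V => ({p.1, z, p.2} : Finset V) ∈ H) := by
        rw [mem_filter, mem_product]
        exact ⟨⟨hu, hw⟩, hedge⟩
      have h2 : (u, w) ∈ (supp y ×ˢ supp y).filter
          (fun p : V × V => ({p.1, z', p.2} : Finset V) ∈ H) := by
        have := heq
        simp only at this
        rw [← this]
        exact h1
      exact (mem_filter.1 h2).2
    have hmaps : ∀ z ∈ supp ξ \ supp y, (supp y ×ˢ supp y).filter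
        (fun p : V × V => ({p.1, z, p.2} : Finset V) ∈ H) ∈ (supp y ×ˢ supp y).powerset := by
      intro z _
      rw [mem_powerset]
      exact Finset.filter_subset _ _
    have h1 := Finset.card_le_card_of_injOn _ hmaps hinj
    rw [Finset.card_powerset, Finset.card_product] at h1
    refine h1.trans (Nat.pow_le_pow_right (by norm_num) ?_)
    rw [sq]
    exact Nat.mul_le_mul hk hk
  have hbig := violation_big H hρ hy U hyU hneu hs h0 hU hneg
  have hcard : (supp y ∪ supp ξ).card ≤ k + 2 ^ (k ^ 2) := by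
    have h1 : supp y ∪ supp ξ = supp y ∪ (supp ξ \ supp y) := by
      rw [Finset.union_sdiff_self_eq_union]
    rw [h1]
    have h2 := Finset.card_union_le (supp y) (supp ξ \ supp y)
    omega
  omega

end Pool.Agent.BC13
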