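import Pool.Agent.Lib.BC13.Transfer

set_option autoImplicit false

namespace Pool.Agent.BC13

open Finset

universe u

variable {V : Type u} [Fintype V] [DecidableEq V]

/-- quadratic form of a set of ordered pairs -/
noncomputable def pq {j : ℕ} (l : Finset (Fin j × Fin j)) (y : Fin j → ℝ) : ℝ :=
  ∑ p ∈ l, y p.1 * y p.2

lemma pq_continuous {j : ℕ} (l : Finset (Fin j × Fin j)) : Continuous (pq l) := by
  unfold pq
  fun_prop

/-- weights form a compact set -/
lemma weight_compact (j : ℕ) : IsCompact {y : Fin j → ℝ | IsWeight y} := by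
  have h : {y : Fin j → ℝ | IsWeight y} = stdSimplex ℝ (Fin j) := by
    ext y
    rfl
  rw [h]
  exact isCompact_stdSimplex ℝ (Fin j)

/-- One finite model: approximate solutions force exact solutions. -/
lemma delta_model (r : ℝ) (j : ℕ) (L : Finset (Finset (Fin j × Fin j))) :
    ∃ δ : ℝ, 0 < δ ∧ ∀ y : Fin j → ℝ, IsWeight y → (∀ l ∈ L, r - δ ≤ pq l y) →
      ∃ y' : Fin j → ℝ, IsWeight y' ∧ ∀ l ∈ L, r ≤ pq l y' := by
  classical
  by_cases hex : ∃ y' : Fin j → ℝ, IsWeight y' ∧ ∀ l ∈ L, r ≤ pq l y'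
  · exact ⟨1, one_pos, fun _ _ _ => hex⟩
  · by_cases hne : ({y : Fin j → ℝ | IsWeight y}).Nonempty
    · set F : (Fin j → ℝ) → ℝ := fun y => ∑ l ∈ L, max 0 (r - pq l y) with hF
      have hFc : Continuous F := by
        rw [hF]
        refine continuous_finsetSum _ fun l _ => ?_
        exact continuous_const.max (continuous_const.sub (pq_continuous l))
      obtain ⟨y0, hy0, hmin⟩ := (weight_compact j).exists_isMinOn hne hFc.continuousOn
      have hy0' : IsWeight y0 := hy0
      have hpos : 0 < F y0 := by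
        by_contra hle
        rw [not_lt] at hle
        apply hex
        refine ⟨y0, hy0', fun l hl => ?_⟩
        have h1 : max 0 (r - pq l y0) ≤ F y0 := by
          rw [hF]
          exact Finset.single_le_sum (f := fun l => max 0 (r - pq l y0))
            (fun i _ => le_max_left _ _) hl
        have h2 : r - pq l y0 ≤ max 0 (r - pq l y0) := le_max_right _ _
        linarith
      refine ⟨F y0 / (L.card + 1), by positivity, ?_⟩
      intro y hy hyl
      exfalso
      have h1 : F y0 ≤ F y := hmin hy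
      have h2 : F y ≤ L.card • (F y0 / (L.card + 1)) := by
        rw [hF]
        refine Finset.sum_le_card_nsmul _ _ _ fun l hl => ?_
        refine max_le (by positivity) ?_
        have := hyl l hl
        linarith
      rw [nsmul_eq_mul] at h2
      have h3 : (L.card : ℝ) * (F y0 / (L.card + 1)) < F y0 := by
        rw [mul_div_assoc', div_lt_iff₀ (by positivity)]
        nlinarith
      linarith
    · refine ⟨1, one_pos, fun y hy _ => ?_⟩
      exact absurd ⟨y, hy⟩ hne

/-- link pattern of `z` in the model -/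
noncomputable def pat (H : Finset (Finset V)) {j : ℕ} (ι : Fin j ↪ V) (z : V) :
    Finset (Fin j × Fin j) :=
  univ.filter (fun p => ({z, ι p.1, ι p.2} : Finset V) ∈ H)

lemma link_ext0 (H : Finset (Finset V)) {j : ℕ} (ι : Fin j ↪ V) (f : Fin j → ℝ) (z : V) :
    link H (ext0 ι f) z = pq (pat H ι z) f / 2 := by
  unfold link pq pat
  congr 1
  rw [Finset.sum_filter, Fintype.sum_prod_type, sum_ext0 ι]
  · refine Finset.sum_congr rfl fun u _ => ?_
    rw [sum_ext0 ι]
    · refine Finset.sum_congr rfl fun w _ => ?_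
      simp only [ext0_apply]
    · intro w hw
      rw [ext0_off ι f w hw]
      simp
  · intro u hu
    refine Finset.sum_eq_zero fun w _ => ?_
    rw [ext0_off ι f u hu]
    simp

/-- The tightening lemma. -/
theorem tighten (k : ℕ) (ρ : ℝ) : ∃ δ : ℝ, 0 < δ ∧
    ∀ (V : Type u) [Fintype V] [DecidableEq V] (H : Finset (Finset V)) (y : V → ℝ),
      IsWeight y → (supp y).card ≤ k →
      ∃ y' : V → ℝ, IsWeight y' ∧ supp y' ⊆ supp y ∧
        ∀ z, 3 * ρ - δ ≤ link H y z → 3 * ρ ≤ link H y' z := by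
  classical
  let I := Σ j : Fin (k + 1), Finset (Finset (Fin (j : ℕ) × Fin (j : ℕ)))
  have hp : ∀ p : I, ∃ δ : ℝ, 0 < δ ∧ ∀ y : Fin (p.1 : ℕ) → ℝ, IsWeight y →
      (∀ l ∈ p.2, 6 * ρ - δ ≤ pq l y) →
      ∃ y' : Fin (p.1 : ℕ) → ℝ, IsWeight y' ∧ ∀ l ∈ p.2, 6 * ρ ≤ pq l y' :=
    fun p => delta_model (6 * ρ) p.1 p.2
  choose D hD0 hD using hp
  have hne : Nonempty I := ⟨⟨0, ∅⟩⟩
  obtain ⟨p0, hp0⟩ := Finite.exists_min D
  refine ⟨D p0 / 2, half_pos (hD0 p0), ?_⟩
  intro V _ _ H y hy hcard
  set T := supp y with hT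
  set L : Finset (Finset (Fin T.card × Fin T.card)) :=
    (univ.filter (fun z => 3 * ρ - D p0 / 2 ≤ link H y z)).image (pat H (enum T)) with hL
  let p : I := ⟨⟨T.card, by omega⟩, L⟩
  have hlink : ∀ z, link H y z = pq (pat H (enum T) z) (fun i => y (enum T i)) / 2 := by
    intro z
    rw [← link_ext0, ext0_enum]
  obtain ⟨y', hy', hge⟩ := hD p (fun i => y (enum T i)) (restrict_weight hy) (by
    intro l hl
    change l ∈ L at hl
    rw [hL, mem_image] at hl
    obtain ⟨z, hz, rfl⟩ := hl
    have h1 := (mem_filter.1 hz).2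
    rw [hlink z] at h1
    have h2 := hp0 p
    linarith)
  refine ⟨ext0 (enum T) y', ext0_weight _ hy', ?_, ?_⟩
  · intro v hv
    by_contra hc
    rw [mem_supp] at hv
    apply hv
    apply ext0_off
    rw [enum_range]
    exact hc
  · intro z hz
    rw [link_ext0]
    have h1 : pat H (enum T) z ∈ L := by
      rw [hL]
      exact mem_image_of_mem _ (mem_filter.2 ⟨mem_univ _, hz⟩)
    have h2 := hge _ h1
    linarith

end Pool.Agent.BC13
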