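import Pool.Agent.Lib.BC13.Delta

set_option autoImplicit false

namespace Pool.Agent.BC13

open Finset

universe u

/-- The local-global dichotomy. -/
theorem dichotomy (ρ : ℝ) (hρ : 0 ≤ ρ) (hρ2 : ρ < 4 / 81) (k : ℕ) :
    ∃ δ0 : ℝ, 0 < δ0 ∧ ∃ c : ℝ, 0 < c ∧
    ∀ (V : Type u) [Fintype V] [DecidableEq V] (H : Finset (Finset V)) (x y : V → ℝ) (δ : ℝ),
      (∀ e ∈ H, e.card = 3) → IsWeight x → (∀ x' : V → ℝ, IsWeight x' → lagr H x' ≤ lagr H x) →
      IsWeight y → (∀ v, y v ≠ 0 → x v ≠ 0) → (supp y).card ≤ k → δ ≤ δ0 →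
      (∀ v, y v ≠ 0 → 3 * ρ - δ ≤ link H y v) →
      lagr H x ≤ ρ + (∑ v ∈ univ.filter (fun v => link H y v < 3 * ρ - δ), x v) / 3 ∨
        ρ + c ≤ lagr H x := by
  classical
  obtain ⟨δ0, hδ0, htight⟩ := tighten.{u} k ρ
  obtain ⟨c, hc, hgap⟩ := gap.{u} (k + 2 ^ (k ^ 2) + 4) ρ
  refine ⟨δ0, hδ0, c, hc, ?_⟩
  intro V _ _ H x y δ hH hx hmax hy hsub hcard hδ hlink
  by_cases hbig : ∃ w : V → ℝ, IsWeight w ∧ (supp w).card ≤ k + 2 ^ (k ^ 2) + 4 ∧ ρ < lagr H w
  · right
    obtain ⟨w, hw, hwc, hlt⟩ := hbig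
    obtain ⟨w', hw', hge⟩ := hgap V H w hw hwc hlt
    exact hge.trans (hmax w' hw')
  left
  have hsmall : Small H ρ (k + 2 ^ (k ^ 2) + 4) := by
    intro w hw hwc
    by_contra hlt
    rw [not_le] at hlt
    exact hbig ⟨w, hw, hwc, hlt⟩
  obtain ⟨y', hy', hsub', hlink'⟩ := htight V H y hy hcard
  set U : Finset V := univ.filter (fun z => 3 * ρ - δ ≤ link H y z) with hU
  have hyU : supp y' ⊆ U := by
    intro v hv
    rw [hU, mem_filter]
    exact ⟨mem_univ _, hlink v ((mem_supp y v).1 (hsub' hv))⟩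
  have hge6 : ∀ z ∈ U, 6 * ρ ≤ tri H (pt z) y' y' := by
    intro z hz
    have h1 := (mem_filter.1 hz).2
    have h2 := hlink' z (by linarith)
    rw [link_eq] at h2
    linarith
  have hyyy : 6 * ρ ≤ tri H y' y' y' := by
    rw [tri_sum1]
    have h1 : ∀ a, 6 * ρ * y' a ≤ y' a * tri H (pt a) y' y' := by
      intro a
      by_cases h0 : y' a = 0
      · rw [h0]; simp
      · have h2 := hge6 a (hyU ((mem_supp y' a).2 h0))
        nlinarith [hy'.1 a]
    calc 6 * ρ = ∑ a, 6 * ρ * y' a := by rw [← Finset.mul_sum, hy'.2, mul_one]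
      _ ≤ _ := Finset.sum_le_sum fun a _ => h1 a
  have hk' : (supp y').card ≤ k := (Finset.card_le_card hsub').trans hcard
  have hneu : ∀ z ∈ U, tri H (pt z) y' y' = 6 * ρ := by
    intro z hz
    refine le_antisymm ?_ (hge6 z hz)
    by_contra hlt
    rw [not_le] at hlt
    obtain ⟨w, hw, hws, hwl⟩ := perturb1 H hρ hy' (ξ := pt z) ⟨pt_nonneg z, sum_pt z⟩ hyyy hlt
    have h1 : (supp w).card ≤ k + 2 ^ (k ^ 2) + 4 := by
      have h2 := Finset.card_le_card hws
      have h3 := Finset.card_union_le (supp y') (supp (pt z))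
      have h4 : (supp (pt z)).card ≤ 1 := by
        have h5 : supp (pt z) ⊆ {z} := by
          intro v hv
          rw [mem_supp] at hv
          rw [mem_singleton]
          by_contra hne
          apply hv
          simp [pt, hne]
        exact (Finset.card_le_card h5).trans (by simp)
      generalize 2 ^ (k ^ 2) = M
      omega
    exact absurd (hsmall w hw h1) (not_le.2 hwl)
  -- the neutral part of `x`
  set xU : V → ℝ := fun v => if v ∈ U then x v else 0 with hxU
  set xN : V → ℝ := fun v => if v ∈ U then 0 else x v with hxN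
  set τ : ℝ := ∑ v ∈ univ.filter (fun v => link H y v < 3 * ρ - δ), x v with hτ
  have hxUN : x = xU + xN := by
    funext v
    simp only [hxU, hxN, Pi.add_apply]
    split_ifs <;> simp
  have hxU0 : ∀ v, 0 ≤ xU v := by
    intro v
    simp only [hxU]
    split_ifs
    · exact hx.1 v
    · exact le_rfl
  have hxN0 : ∀ v, 0 ≤ xN v := by
    intro v
    simp only [hxN]
    split_ifs
    · exact le_rfl
    · exact hx.1 v
  have hsumN : ∑ v, xN v = τ := by
    rw [hτ, Finset.sum_filter]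
    refine Finset.sum_congr rfl fun v _ => ?_
    simp only [hxN, hU, mem_filter, mem_univ, true_and]
    by_cases h : 3 * ρ - δ ≤ link H y v
    · rw [if_pos h, if_neg (not_lt.2 h)]
    · rw [if_neg h, if_pos (not_le.1 h)]
  have hsumU : ∑ v, xU v = 1 - τ := by
    have h1 := hx.2
    rw [hxUN] at h1
    simp only [Pi.add_apply] at h1
    rw [Finset.sum_add_distrib, hsumN] at h1
    linarith
  have hτ0 : 0 ≤ τ := by rw [← hsumN]; exact Finset.sum_nonneg fun v _ => hxN0 v
  have hτ1 : τ ≤ 1 := by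
    have : 0 ≤ ∑ v, xU v := Finset.sum_nonneg fun v _ => hxU0 v
    rw [hsumU] at this
    linarith
  have hsuppU : supp xU ⊆ U := by
    intro v hv
    rw [mem_supp] at hv
    by_contra hc
    apply hv
    simp [hxU, hc]
  have hcore := core H hH hρ hρ2 hy' hk' U hyU hneu hsmall xU hxU0 hsuppU
  unfold qf at hcore
  rw [hsumU] at hcore
  -- lower bound of `tri y' x x`
  have hlow : 6 * lagr H x ≤ tri H y' x x := by
    rw [tri_sum1, lagr_eq]
    have h1 : ∀ a, y' a * tri H x x x ≤ y' a * tri H (pt a) x x := by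
      intro a
      by_cases h0 : y' a = 0
      · rw [h0]; simp
      · have h2 : y a ≠ 0 := (mem_supp y a).1 (hsub' ((mem_supp y' a).2 h0))
        have h3 : 0 < x a := lt_of_le_of_ne (hx.1 a) (Ne.symm (hsub a h2))
        exact mul_le_mul_of_nonneg_left (lagrange H hH x hx hmax a h3) (hy'.1 a)
    calc 6 * (tri H x x x / 6) = ∑ a, y' a * tri H x x x := by
          rw [← Finset.sum_mul, hy'.2]; ring
      _ ≤ _ := Finset.sum_le_sum fun a _ => h1 a
  -- comparison
  have hexp : tri H y' x x = tri H y' xU xU + tri H y' xU xN + tri H y' xN x := by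
    conv_lhs => rw [hxUN]
    rw [tri_add2, tri_add3, ← hxUN]
  have hb1 : tri H y' xU xN ≤ τ := by
    have h1 := tri_le H hy'.1 hxU0 hxN0
    rw [hy'.2, hsumU, hsumN] at h1
    nlinarith
  have hb2 : tri H y' xN x ≤ τ := by
    have h1 := tri_le H hy'.1 hxN0 hx.1
    rw [hy'.2, hx.2, hsumN] at h1
    linarith
  have hρτ : 6 * ρ * (1 - τ) * (1 - τ) ≤ 6 * ρ := by
    have h1 : (1 - τ) * (1 - τ) ≤ 1 := by nlinarith
    have h2 : 0 ≤ 6 * ρ := by linarith
    nlinarith
  linarith

/-- Concentrated optimal weightings. -/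
theorem concentrated (ρ : ℝ) (hρ : 0 ≤ ρ) (hρ2 : ρ < 4 / 81) (k : ℕ) :
    ∃ δ : ℝ, 0 < δ ∧ ∃ c : ℝ, 0 < c ∧
    ∀ (V : Type u) [Fintype V] [DecidableEq V] (H : Finset (Finset V)) (x : V → ℝ),
      (∀ e ∈ H, e.card = 3) → IsWeight x → (∀ x' : V → ℝ, IsWeight x' → lagr H x' ≤ lagr H x) →
      ((∃ K : Finset V, K.card ≤ k ∧ 1 - δ ≤ ∑ v ∈ K, x v) →
        lagr H x ≤ ρ ∨ ρ + c ≤ lagr H x) ∧
      (∀ y : V → ℝ, IsWeight y → (∀ v, y v ≠ 0 → x v ≠ 0) → (supp y).card ≤ k →
        (∀ v, y v ≠ 0 → 3 * ρ - δ ≤ link H y v) →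
        lagr H x ≤ ρ + (∑ v ∈ univ.filter (fun v => link H y v < 3 * ρ - δ), x v) / 3 ∨
          ρ + c ≤ lagr H x) := by
  classical
  obtain ⟨δ0, hδ0, c, hc, hdich⟩ := dichotomy.{u} ρ hρ hρ2 k
  refine ⟨min δ0 (1 / 2), lt_min hδ0 (by norm_num), c, hc, ?_⟩
  intro V _ _ H x hH hx hmax
  refine ⟨?_, ?_⟩
  swap
  · intro y hy hsub hcard hlink
    exact hdich V H x y (min δ0 (1 / 2)) hH hx hmax hy hsub hcard (min_le_left _ _) hlink
  rintro ⟨K, hKc, hKm⟩
  by_contra hcon
  rw [not_or, not_le, not_le] at hcon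
  obtain ⟨hlt, hlt2⟩ := hcon
  set δ := min δ0 (1 / 2) with hδ
  have hδ1 : δ ≤ 1 / 2 := min_le_right _ _
  set xK : V → ℝ := fun v => if v ∈ K then x v else 0 with hxK
  set xN : V → ℝ := fun v => if v ∈ K then 0 else x v with hxN
  set m : ℝ := ∑ v ∈ K, x v with hm
  have hxKN : x = xK + xN := by
    funext v
    simp only [hxK, hxN, Pi.add_apply]
    split_ifs <;> simp
  have hxK0 : ∀ v, 0 ≤ xK v := by
    intro v
    simp only [hxK]
    split_ifs
    · exact hx.1 v
    · exact le_rfl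
  have hxN0 : ∀ v, 0 ≤ xN v := by
    intro v
    simp only [hxN]
    split_ifs
    · exact le_rfl
    · exact hx.1 v
  have hsumK : ∑ v, xK v = m := by
    rw [hm, hxK, Finset.sum_ite_mem]
    simp
  have hsumN : ∑ v, xN v = 1 - m := by
    have h1 := hx.2
    rw [hxKN] at h1
    simp only [Pi.add_apply] at h1
    rw [Finset.sum_add_distrib, hsumK] at h1
    linarith
  have hm0 : 0 < m := by linarith
  have hm1 : m ≤ 1 := by
    have : 0 ≤ ∑ v, xN v := Finset.sum_nonneg fun v _ => hxN0 v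
    rw [hsumN] at this
    linarith
  set y : V → ℝ := m⁻¹ • xK with hy_def
  have hy : IsWeight y := by
    refine ⟨fun v => ?_, ?_⟩
    · simp only [hy_def, Pi.smul_apply, smul_eq_mul]
      have := hxK0 v
      positivity
    · simp only [hy_def, Pi.smul_apply, smul_eq_mul]
      rw [← Finset.mul_sum, hsumK]
      field_simp
  have hysub : ∀ v, y v ≠ 0 → x v ≠ 0 := by
    intro v hv h0
    apply hv
    simp [hy_def, hxK, h0]
  have hycard : (supp y).card ≤ k := by
    refine (Finset.card_le_card ?_).trans hKc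
    intro v hv
    rw [mem_supp] at hv
    by_contra hc
    apply hv
    simp [hy_def, hxK, hc]
  have hlinkx : ∀ z, x z ≠ 0 → 3 * ρ - δ ≤ link H y z := by
    intro z hz
    have hz0 : 0 < x z := lt_of_le_of_ne (hx.1 z) (Ne.symm hz)
    have h1 := lagrange H hH x hx hmax z hz0
    rw [lagr_eq] at hlt
    rw [link_eq]
    have h2 : tri H (pt z) x x = tri H (pt z) xK xK + tri H (pt z) xK xN + tri H (pt z) xN x := by
      conv_lhs => rw [hxKN]
      rw [tri_add2, tri_add3, ← hxKN]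
    have h3 : tri H (pt z) xK xN ≤ 1 - m := by
      have h4 := tri_le H (pt_nonneg z) hxK0 hxN0
      rw [sum_pt, hsumK, hsumN] at h4
      nlinarith
    have h4 : tri H (pt z) xN x ≤ 1 - m := by
      have h5 := tri_le H (pt_nonneg z) hxN0 hx.1
      rw [sum_pt, hx.2, hsumN] at h5
      linarith
    have h5 : tri H (pt z) xK xK ≤ tri H (pt z) y y := by
      have h6 : xK = m • y := by
        funext v
        simp only [hy_def, Pi.smul_apply, smul_eq_mul]
        field_simp
      have h7 : 0 ≤ tri H (pt z) y y := tri_nonneg H (pt_nonneg z) hy.1 hy.1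
      rw [h6, tri_smul2, tri_smul3]
      have h8 : m * m ≤ 1 := by nlinarith
      nlinarith
    linarith
  have hfin := hdich V H x y δ hH hx hmax hy hysub hycard (min_le_left _ _)
    (fun v hv => hlinkx v (hysub v hv))
  have hzero : ∑ v ∈ univ.filter (fun v => link H y v < 3 * ρ - δ), x v = 0 := by
    refine Finset.sum_eq_zero fun v hv => ?_
    by_contra hne
    exact absurd (hlinkx v hne) (not_le.2 (mem_filter.1 hv).2)
  rw [hzero] at hfin
  rcases hfin with h | h
  · linarith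
  · linarith

end Pool.Agent.BC13
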