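import Pool.Agent.Lib.BC13.Core2

set_option autoImplicit false

namespace Pool.Agent.BC13

open Finset

universe u

variable {V : Type u} [Fintype V] [DecidableEq V]

/-- extension by zero along an embedding -/
noncomputable def ext0 {j : ℕ} (ι : Fin j ↪ V) (f : Fin j → ℝ) : V → ℝ :=
  Function.extend ι f 0

omit [Fintype V] [DecidableEq V] in
lemma ext0_apply {j : ℕ} (ι : Fin j ↪ V) (f : Fin j → ℝ) (i : Fin j) :
    ext0 ι f (ι i) = f i := by
  unfold ext0
  exact ι.injective.extend_apply f 0 i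

omit [Fintype V] [DecidableEq V] in
lemma ext0_off {j : ℕ} (ι : Fin j ↪ V) (f : Fin j → ℝ) (v : V) (hv : v ∉ Set.range ι) :
    ext0 ι f v = 0 := by
  unfold ext0
  rw [Function.extend_apply' _ _ _ (fun ⟨a, ha⟩ => hv ⟨a, ha⟩)]
  rfl

omit [DecidableEq V] in
lemma sum_ext0 {j : ℕ} (ι : Fin j ↪ V) (g : V → ℝ) (h : ∀ v, v ∉ Set.range ι → g v = 0) :
    ∑ v, g v = ∑ i, g (ι i) :=
  (Fintype.sum_of_injective ι ι.injective (fun i => g (ι i)) g h (fun _ => rfl)).symm

omit [DecidableEq V] in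
lemma ext0_weight {j : ℕ} (ι : Fin j ↪ V) {f : Fin j → ℝ} (hf : IsWeight f) :
    IsWeight (ext0 ι f) := by
  refine ⟨fun v => ?_, ?_⟩
  · by_cases hv : v ∈ Set.range ι
    · obtain ⟨i, rfl⟩ := hv
      rw [ext0_apply]
      exact hf.1 i
    · rw [ext0_off ι f v hv]
  · rw [sum_ext0 ι _ (fun v hv => ext0_off ι f v hv)]
    simp only [ext0_apply]
    exact hf.2

omit [Fintype V] in
lemma map_triple {j : ℕ} (ι : Fin j ↪ V) (a b c : Fin j) :
    (({a, b, c} : Finset (Fin j)).map ι) = {ι a, ι b, ι c} := by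
  simp [Finset.map_insert]

/-- the model of `H` on the image of `ι` -/
noncomputable def pull (H : Finset (Finset V)) {j : ℕ} (ι : Fin j ↪ V) :
    Finset (Finset (Fin j)) := univ.filter (fun A => A.map ι ∈ H)

lemma tri_ext0 (H : Finset (Finset V)) {j : ℕ} (ι : Fin j ↪ V) (a b c : Fin j → ℝ) :
    tri H (ext0 ι a) (ext0 ι b) (ext0 ι c) = tri (pull H ι) a b c := by
  unfold tri
  rw [sum_ext0 ι]
  · refine Finset.sum_congr rfl fun u _ => ?_
    rw [sum_ext0 ι]
    · refine Finset.sum_congr rfl fun v _ => ?_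
      rw [sum_ext0 ι]
      · refine Finset.sum_congr rfl fun w _ => ?_
        simp only [ext0_apply]
        have h : ({ι u, ι v, ι w} : Finset V) ∈ H ↔ ({u, v, w} : Finset (Fin j)) ∈ pull H ι := by
          unfold pull
          rw [mem_filter, map_triple]
          simp
        simp only [h]
      · intro w hw
        rw [ext0_off ι c w hw]
        simp
    · intro v hv
      refine Finset.sum_eq_zero fun w _ => ?_
      rw [ext0_off ι b v hv]
      simp
  · intro u hu
    refine Finset.sum_eq_zero fun v _ => Finset.sum_eq_zero fun w _ => ?_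
    rw [ext0_off ι a u hu]
    simp

/-- an enumeration of a finite set -/
noncomputable def enum (T : Finset V) : Fin T.card ↪ V :=
  ⟨fun i => ((T.equivFin.symm i : T) : V), fun _ _ h =>
    T.equivFin.symm.injective (Subtype.ext h)⟩

omit [Fintype V] [DecidableEq V] in
lemma enum_range (T : Finset V) (v : V) : v ∈ Set.range (enum T) ↔ v ∈ T := by
  constructor
  · rintro ⟨i, rfl⟩
    exact (T.equivFin.symm i).2
  · intro hv
    refine ⟨T.equivFin ⟨v, hv⟩, ?_⟩
    simp [enum]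

lemma ext0_enum (w : V → ℝ) : ext0 (enum (supp w)) (fun i => w (enum (supp w) i)) = w := by
  funext v
  by_cases hv : v ∈ Set.range (enum (supp w))
  · obtain ⟨i, rfl⟩ := hv
    rw [ext0_apply]
  · rw [ext0_off _ _ _ hv]
    rw [enum_range, mem_supp, not_not] at hv
    exact hv.symm

omit [DecidableEq V] in
lemma restrict_weight {w : V → ℝ} (hw : IsWeight w) :
    IsWeight (fun i => w (enum (supp w) i)) := by
  refine ⟨fun i => hw.1 _, ?_⟩
  have h := sum_ext0 (enum (supp w)) w (fun v hv => by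
    rw [enum_range, mem_supp, not_not] at hv; exact hv)
  rw [← h]
  exact hw.2

/-- The gap lemma: values above `ρ` on a bounded number of vertices force a jump. -/
theorem gap (N : ℕ) (ρ : ℝ) : ∃ c : ℝ, 0 < c ∧
    ∀ (V : Type u) [Fintype V] [DecidableEq V] (H : Finset (Finset V)) (w : V → ℝ),
      IsWeight w → (supp w).card ≤ N → ρ < lagr H w →
      ∃ w' : V → ℝ, IsWeight w' ∧ ρ + c ≤ lagr H w' := by
  classical
  let I := Σ j : Fin (N + 1), Finset (Finset (Fin (j : ℕ)))
  have hp : ∀ p : I, ∃ c : ℝ, 0 < c ∧ ((∃ w : Fin (p.1 : ℕ) → ℝ, IsWeight w ∧ ρ < lagr p.2 w) →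
      ∃ w : Fin (p.1 : ℕ) → ℝ, IsWeight w ∧ ρ + c ≤ lagr p.2 w) := by
    intro p
    by_cases h : ∃ w : Fin (p.1 : ℕ) → ℝ, IsWeight w ∧ ρ < lagr p.2 w
    · obtain ⟨w, hw, hlt⟩ := h
      exact ⟨lagr p.2 w - ρ, by linarith, fun _ => ⟨w, hw, by linarith⟩⟩
    · exact ⟨1, one_pos, fun h' => absurd h' h⟩
  choose C hC0 hC using hp
  have hne : Nonempty I := ⟨⟨0, ∅⟩⟩
  obtain ⟨p0, hp0⟩ := Finite.exists_min C
  refine ⟨C p0, hC0 p0, ?_⟩
  intro V _ _ H w hw hcard hlt
  set T := supp w with hT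
  let p : I := ⟨⟨T.card, by omega⟩, pull H (enum T)⟩
  have h1 : lagr (pull H (enum T)) (fun i => w (enum T i)) = lagr H w := by
    rw [lagr_eq, lagr_eq, ← tri_ext0, ext0_enum]
  obtain ⟨w0, hw0, hge⟩ := hC p ⟨fun i => w (enum T i), restrict_weight hw, by
    change ρ < lagr (pull H (enum T)) (fun i => w (enum T i))
    rw [h1]; exact hlt⟩
  refine ⟨ext0 (enum T) w0, ext0_weight _ hw0, ?_⟩
  have h2 : lagr H (ext0 (enum T) w0) = lagr (pull H (enum T)) w0 := by
    rw [lagr_eq, lagr_eq, tri_ext0]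
  rw [h2]
  have h3 := hp0 p
  have h4 : ρ + C p ≤ lagr (pull H (enum T)) w0 := hge
  linarith

end Pool.Agent.BC13
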